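import Mathlib

/-!
Infinite binary words of linear complexity with a large first difference, from maximal-length
linear recurring sequences.
-/

namespace Pool.Agent.N703.FC

/-- The number of factors of length `n` of the infinite word `u`. -/
noncomputable def cplx {α : Type} (u : ℕ → α) (n : ℕ) : ℕ :=
  (Set.range (fun (i : ℕ) (j : Fin n) => u (i + j))).ncard

theorem exists_word (k : ℕ) (hk : 2 ≤ k) :
    ∃ u : ℕ → Fin 2, (∀ n, cplx u n ≤ 2 ^ n) ∧ (∀ n, cplx u n ≤ 2 ^ k - 1) ∧
      cplx u k = 2 ^ k - 1 := by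
  classical
  have : Fact (Nat.Prime 2) := ⟨Nat.prime_two⟩
  have hcard : Nat.card (GaloisField 2 k) = 2 ^ k := GaloisField.card 2 k (by omega)
  obtain ⟨g, hg⟩ := IsCyclic.exists_monoid_generator (α := (GaloisField 2 k)ˣ)
  obtain ⟨φ, hφ⟩ : ∃ φ : Module.Dual (ZMod 2) (GaloisField 2 k), φ 1 ≠ 0 := by
    by_contra h
    push Not at h
    exact one_ne_zero ((Module.forall_dual_apply_eq_zero_iff (ZMod 2)
      (1 : GaloisField 2 k)).1 h)
  have hpow : ∀ x : GaloisField 2 k, x ≠ 0 → ∃ i : ℕ, (g : GaloisField 2 k) ^ i = x := by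
    intro x hx
    obtain ⟨i, hi⟩ := Submonoid.mem_powers_iff _ _ |>.1 (hg (Units.mk0 x hx))
    refine ⟨i, ?_⟩
    have h1 := congrArg Units.val hi
    simpa using h1
  -- the recurrence
  have key : ∀ z : GaloisField 2 k, (∀ j < k, φ (z * (g : GaloisField 2 k) ^ j) = 0) →
      z = 0 := by
    intro z hz
    set P := minpoly (ZMod 2) (g : GaloisField 2 k) with hP
    have hmonic : P.Monic := minpoly.monic (Algebra.IsIntegral.isIntegral _)
    have hdeg : P.natDegree ≤ k := by
      have h1 := minpoly.natDegree_le (A := ZMod 2) (g : GaloisField 2 k)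
      rwa [GaloisField.finrank 2 (by omega : k ≠ 0)] at h1
    have h0 : (∑ i ∈ Finset.range P.natDegree, P.coeff i • (g : GaloisField 2 k) ^ i)
        + (g : GaloisField 2 k) ^ P.natDegree = 0 := by
      have h1 := minpoly.aeval (ZMod 2) (g : GaloisField 2 k)
      rw [← hP, Polynomial.aeval_eq_sum_range, Finset.sum_range_succ,
        hmonic.coeff_natDegree, one_smul] at h1
      exact h1
    have hall : ∀ j, φ (z * (g : GaloisField 2 k) ^ j) = 0 := by
      intro j
      induction j using Nat.strong_induction_on with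
      | _ j ih =>
        by_cases hj : j < P.natDegree
        · exact hz j (by omega)
        · have h1 : φ (z * (g : GaloisField 2 k) ^ (j - P.natDegree) *
              ((∑ i ∈ Finset.range P.natDegree, P.coeff i • (g : GaloisField 2 k) ^ i)
                + (g : GaloisField 2 k) ^ P.natDegree)) = 0 := by
            rw [h0]; simp
          rw [mul_add, map_add, Finset.mul_sum, map_sum, Finset.sum_eq_zero, zero_add] at h1
          · rw [mul_assoc, ← pow_add, Nat.sub_add_cancel (by omega)] at h1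
            exact h1
          · intro i hi
            rw [Finset.mem_range] at hi
            rw [mul_smul_comm, map_smul, mul_assoc, ← pow_add, ih _ (by omega), smul_zero]
    by_contra hne
    apply hφ
    by_cases h1 : (1 : GaloisField 2 k) = 0
    · exact absurd h1 one_ne_zero
    · obtain ⟨i, hi⟩ := hpow z⁻¹ (inv_ne_zero hne)
      have h2 := hall i
      rwa [hi, mul_inv_cancel₀ hne] at h2
  have hrange : ∀ n, Set.range (fun (i : ℕ) (j : Fin n) =>
      (φ ((g : GaloisField 2 k) ^ (i + (j : ℕ))) : ZMod 2)) =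
      (fun (x : GaloisField 2 k) (j : Fin n) => (φ (x * (g : GaloisField 2 k) ^ (j : ℕ)) : ZMod 2))
        '' ({0}ᶜ : Set (GaloisField 2 k)) := by
    intro n
    ext w
    constructor
    · rintro ⟨i, rfl⟩
      refine ⟨(g : GaloisField 2 k) ^ i, ?_, ?_⟩
      · simp
      · funext j
        simp only [pow_add]
    · rintro ⟨x, hx, rfl⟩
      obtain ⟨i, hi⟩ := hpow x (by simpa using hx)
      refine ⟨i, ?_⟩
      funext j
      simp only [pow_add, hi]
  have hcompl : ({0}ᶜ : Set (GaloisField 2 k)).ncard = 2 ^ k - 1 := by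
    rw [Set.ncard_compl, hcard, Set.ncard_singleton]
  refine ⟨fun i => (φ ((g : GaloisField 2 k) ^ i) : ZMod 2), ?_, ?_, ?_⟩
  · intro n
    have h1 : Nat.card (Fin n → Fin 2) = 2 ^ n := by
      simp
    rw [← h1, ← Set.ncard_univ]
    exact Set.ncard_le_ncard (Set.subset_univ _)
  · intro n
    show (Set.range (fun (i : ℕ) (j : Fin n) =>
      (φ ((g : GaloisField 2 k) ^ (i + (j : ℕ))) : ZMod 2))).ncard ≤ _
    rw [hrange n, ← hcompl]
    exact Set.ncard_image_le (Set.toFinite _)
  · show (Set.range (fun (i : ℕ) (j : Fin k) =>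
      (φ ((g : GaloisField 2 k) ^ (i + (j : ℕ))) : ZMod 2))).ncard = _
    rw [hrange k, ← hcompl]
    apply Set.ncard_image_of_injective
    intro x y hxy
    have h1 : x - y = 0 := by
      apply key
      intro j hj
      have h2 := congrFun hxy ⟨j, hj⟩
      simp only at h2
      rw [sub_mul, map_sub, h2, sub_self]
    exact sub_eq_zero.1 h1

theorem arith (m n : ℕ) (hm : 1 ≤ m) (hmn : m ≤ n) :
    (n : ℝ) * (2 ^ m - 1) ≤ m * (2 ^ n - 1) := by
  induction n, hmn using Nat.le_induction with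
  | base => exact le_refl _
  | succ n hn ih =>
    have h1 : (2 : ℝ) ^ m ≤ 2 ^ n := pow_le_pow_right₀ (by norm_num) hn
    have h2 : (1 : ℝ) ≤ m := by exact_mod_cast hm
    have h3 : (0 : ℝ) < 2 ^ n := by positivity
    push_cast
    rw [pow_succ]
    nlinarith

theorem word_bound (k : ℕ) (hk : 2 ≤ k) (a : ℝ) (ha : (2 : ℝ) ^ k - 2 ≤ a * k) :
    ∃ u : ℕ → Fin 2, (∀ m : ℕ, (cplx u m : ℝ) ≤ a * m + 1) ∧
      (2 : ℝ) ^ (k - 1) - 1 ≤ (cplx u k : ℝ) - cplx u (k - 1) := by
  obtain ⟨u, h1, h2, h3⟩ := exists_word k hk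
  have hkr : (2 : ℝ) ≤ k := by exact_mod_cast hk
  have hpow : (2 : ℝ) ^ k = 2 * 2 ^ (k - 1) := by
    rw [← pow_succ', Nat.sub_add_cancel (by omega)]
  have hp1 : (1 : ℝ) ≤ 2 ^ (k - 1) := one_le_pow₀ (by norm_num)
  have ha0 : 0 ≤ a := by
    by_contra hneg
    push Not at hneg
    nlinarith
  have h2' : ∀ n, (cplx u n : ℝ) ≤ 2 ^ k - 1 := by
    intro n
    have h4 : cplx u n + 1 ≤ 2 ^ k := by
      have := h2 n
      have : 1 ≤ 2 ^ k := Nat.one_le_two_pow
      omega
    have h5 : ((cplx u n : ℝ) + 1) ≤ 2 ^ k := by exact_mod_cast h4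
    linarith
  have h1' : ∀ n, (cplx u n : ℝ) ≤ 2 ^ n := by
    intro n
    exact_mod_cast h1 n
  refine ⟨u, ?_, ?_⟩
  · intro m
    rcases Nat.eq_zero_or_pos m with rfl | hm
    · have := h1' 0
      simpa using this
    · have hmr : (1 : ℝ) ≤ m := by exact_mod_cast hm
      by_cases hmk : m < k
      · have h4 := h1' m
        have h5 := arith m (k - 1) hm (by omega)
        rw [Nat.cast_sub (by omega : 1 ≤ k), Nat.cast_one] at h5
        have h6 : (0 : ℝ) ≤ 2 ^ m - 1 := by
          have : (1 : ℝ) ≤ 2 ^ m := one_le_pow₀ (by norm_num)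
          linarith
        have h7 : (k : ℝ) * (2 ^ m - 1) ≤ m * (2 ^ k - 2) := by
          rw [hpow]
          nlinarith
        have h8 : (k : ℝ) * (2 ^ m - 1) ≤ k * (a * m) := by
          nlinarith
        have h9 : (2 : ℝ) ^ m - 1 ≤ a * m := le_of_mul_le_mul_left h8 (by linarith)
        linarith
      · have h4 := h2' m
        have hkm : (k : ℝ) ≤ m := by exact_mod_cast (not_lt.1 hmk)
        nlinarith
  · have h4 : (cplx u k : ℝ) = 2 ^ k - 1 := by
      rw [h3, Nat.cast_sub Nat.one_le_two_pow]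
      push_cast
      ring
    have h5 := h1' (k - 1)
    rw [h4, hpow]
    linarith

theorem real_bound (a : ℝ) (ha : 1 ≤ a) :
    ∃ u : ℕ → Fin 2, (∀ m : ℕ, (cplx u m : ℝ) ≤ a * m + 1) ∧
      ∃ n : ℕ, a * Real.logb 2 a / 4 - 1 / 2 ≤ (cplx u (n + 1) : ℝ) - cplx u n := by
  classical
  have hex : ∃ K : ℕ, a * K < (2 : ℝ) ^ K - 2 := by
    obtain ⟨N, hN⟩ := exists_nat_gt (2 * a + 4)
    refine ⟨2 * N, ?_⟩
    have h1 : (N : ℝ) + 1 ≤ 2 ^ N := by
      have h2 : N + 1 ≤ 2 ^ N := Nat.lt_two_pow_self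
      exact_mod_cast h2
    have h3 : (2 : ℝ) ^ (2 * N) = 2 ^ N * 2 ^ N := by rw [two_mul, pow_add]
    rw [h3]
    push_cast
    nlinarith
  set K := Nat.find hex with hK
  have hspec : a * K < (2 : ℝ) ^ K - 2 := Nat.find_spec hex
  have hK3 : 3 ≤ K := by
    by_contra hlt
    have h1 : K = 0 ∨ K = 1 ∨ K = 2 := by omega
    rcases h1 with h | h | h
    · rw [h] at hspec; norm_num at hspec
    · rw [h] at hspec; norm_num at hspec; linarith
    · rw [h] at hspec; norm_num at hspec; linarith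
  obtain ⟨k, hk⟩ : ∃ k, K = k + 1 := ⟨K - 1, by omega⟩
  have hmin : (2 : ℝ) ^ k - 2 ≤ a * k := by
    by_contra hcon
    push Not at hcon
    have := Nat.find_min' hex hcon
    omega
  obtain ⟨u, hu1, hu2⟩ := word_bound k (by omega) a hmin
  refine ⟨u, hu1, k - 1, ?_⟩
  rw [Nat.sub_add_cancel (by omega : 1 ≤ k)]
  refine le_trans ?_ hu2
  rw [hk] at hspec
  push_cast at hspec
  have hpow : (2 : ℝ) ^ (k + 1) = 4 * 2 ^ (k - 1) := by
    obtain ⟨j, rfl⟩ : ∃ j, k = j + 1 := ⟨k - 1, by omega⟩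
    simp only [Nat.add_sub_cancel]
    ring
  have hlog : Real.logb 2 a ≤ k + 1 := by
    rw [Real.logb_le_iff_le_rpow (by norm_num) (by linarith)]
    have h1 : (2 : ℝ) ^ ((k : ℝ) + 1) = 2 ^ (k + 1) := by
      rw [← Real.rpow_natCast]
      push_cast
      rfl
    rw [h1]
    have hk0 : (0 : ℝ) ≤ k := Nat.cast_nonneg k
    nlinarith
  have h5 : a * Real.logb 2 a ≤ a * (k + 1) := mul_le_mul_of_nonneg_left hlog (by linarith)
  rw [hpow] at hspec
  linarith

end Pool.Agent.N703.FC
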