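import Pool.Agent.N703.FC.Order

/-!
`B(a)` has order of growth `a log a`.
-/

namespace Pool.Agent.N703.FC

open Filter Asymptotics

/-- The set of all values `s_u(n) = p_u(n + 1) - p_u(n)`, where `u` is an infinite word over a
finite alphabet with `p_u(m) ≤ a m + 1` for all `m`, and `n ≥ 0`. -/
def Vals (a : ℝ) : Set ℝ :=
  {s | ∃ (α : Type) (_ : Finite α) (u : ℕ → α) (n : ℕ),
    (∀ m : ℕ, (cplx u m : ℝ) ≤ a * m + 1) ∧ s = (cplx u (n + 1) : ℝ) - cplx u n}

/-- `B(a)`, the supremum of these values. -/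
noncomputable def B (a : ℝ) : ℝ := sSup (Vals a)

theorem vals_le (a : ℝ) (ha : 0 ≤ a) :
    ∀ s ∈ Vals a, s ≤ 4 * (a + 1) * (1 + Real.logb 2 (5 * (a + 1))) := by
  rintro s ⟨α, hα, u, n, hu, rfl⟩
  exact log_upper u a ha hu n

theorem bounds (a : ℝ) (ha : 1 ≤ a) :
    BddAbove (Vals a) ∧ a * Real.logb 2 a / 4 - 1 / 2 ≤ B a ∧
      B a ≤ 4 * (a + 1) * (1 + Real.logb 2 (5 * (a + 1))) := by
  have hbdd : BddAbove (Vals a) := ⟨_, vals_le a (by linarith)⟩
  obtain ⟨u, hu, n, hn⟩ := real_bound a ha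
  have hmem : (cplx u (n + 1) : ℝ) - cplx u n ∈ Vals a :=
    ⟨Fin 2, inferInstance, u, n, hu, rfl⟩
  refine ⟨hbdd, hn.trans (le_csSup hbdd hmem), csSup_le ⟨_, hmem⟩ (vals_le a (by linarith))⟩

theorem theta : (fun a : ℝ => B a) =Θ[atTop] (fun a : ℝ => a * Real.log a) := by
  have hlog2 : 0 < Real.log 2 := Real.log_pos (by norm_num)
  have key : ∀ a : ℝ, 10 ≤ a → 1 ≤ Real.logb 2 a ∧
      Real.logb 2 (5 * (a + 1)) ≤ 2 * Real.logb 2 a := by
    intro a ha
    have h1 : 1 ≤ Real.logb 2 a := by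
      rw [Real.le_logb_iff_rpow_le (by norm_num) (by linarith), Real.rpow_one]
      linarith
    refine ⟨h1, ?_⟩
    have h2 : 2 * Real.logb 2 a = Real.logb 2 (a ^ 2) := by
      rw [Real.logb_pow]
      norm_num
    rw [h2]
    exact Real.logb_le_logb_of_le (by norm_num) (by linarith) (by nlinarith)
  have hconv : ∀ a : ℝ, a * Real.log a = Real.log 2 * (a * Real.logb 2 a) := by
    intro a
    rw [Real.logb]
    field_simp
  constructor
  · apply IsBigO.of_bound (24 / Real.log 2)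
    filter_upwards [eventually_ge_atTop (10 : ℝ)] with a ha
    obtain ⟨h1, h2⟩ := key a ha
    obtain ⟨-, h3, h4⟩ := bounds a (by linarith)
    have h5 : 0 ≤ B a := by
      refine le_trans ?_ h3
      nlinarith
    have h6 : 0 ≤ a * Real.log a := by
      rw [hconv]
      have : 0 ≤ a * Real.logb 2 a := by nlinarith
      positivity
    rw [Real.norm_of_nonneg h5, Real.norm_of_nonneg h6, hconv]
    have h7 : 24 / Real.log 2 * (Real.log 2 * (a * Real.logb 2 a)) = 24 * (a * Real.logb 2 a) := by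
      field_simp
    rw [h7]
    refine h4.trans ?_
    have h8 : 4 * (a + 1) * (1 + Real.logb 2 (5 * (a + 1))) ≤
        4 * (a + 1) * (1 + 2 * Real.logb 2 a) :=
      mul_le_mul_of_nonneg_left (by linarith) (by linarith)
    have h9 : 4 * (a + 1) * (1 + 2 * Real.logb 2 a) ≤ 4 * (2 * a) * (3 * Real.logb 2 a) :=
      mul_le_mul (by linarith) (by linarith) (by linarith) (by linarith)
    refine h8.trans (h9.trans (le_of_eq ?_))
    ring
  · apply IsBigO.of_bound (8 * Real.log 2)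
    filter_upwards [eventually_ge_atTop (10 : ℝ)] with a ha
    obtain ⟨h1, h2⟩ := key a ha
    obtain ⟨-, h3, h4⟩ := bounds a (by linarith)
    have h5 : 0 ≤ B a := by
      refine le_trans ?_ h3
      nlinarith
    have h6 : 0 ≤ a * Real.log a := by
      rw [hconv]
      have : 0 ≤ a * Real.logb 2 a := by nlinarith
      positivity
    rw [Real.norm_of_nonneg h5, Real.norm_of_nonneg h6, hconv]
    have h7 : (10 : ℝ) ≤ a * Real.logb 2 a := by nlinarith
    have h8 : a * Real.logb 2 a ≤ 8 * B a := by linarith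
    calc Real.log 2 * (a * Real.logb 2 a) ≤ Real.log 2 * (8 * B a) :=
          mul_le_mul_of_nonneg_left h8 hlog2.le
      _ = 8 * Real.log 2 * B a := by ring

end Pool.Agent.N703.FC

namespace Pool.Agent.N703.FC

theorem all_bounds (a : ℝ) (ha : 1 ≤ a) :
    BddAbove (Vals a) ∧ a * Real.logb 2 a / 4 - 1 / 2 ≤ B a ∧
      B a ≤ 4 * (a + 1) * (1 + Real.logb 2 (5 * (a + 1))) ∧ B a ≤ 10 * a ^ 2 + 2 * a ∧
      ∀ k : ℕ, 2 ≤ k → (2 : ℝ) ^ k - 2 ≤ a * k → (2 : ℝ) ^ (k - 1) - 1 ≤ B a := by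
  obtain ⟨h1, h2, h3⟩ := bounds a ha
  refine ⟨h1, h2, h3, ?_, ?_⟩
  · obtain ⟨u, hu, n, hn⟩ := real_bound a ha
    have hmem : (cplx u (n + 1) : ℝ) - cplx u n ∈ Vals a :=
      ⟨Fin 2, inferInstance, u, n, hu, rfl⟩
    refine csSup_le ⟨_, hmem⟩ ?_
    rintro s ⟨α, hα, u, n, hu, rfl⟩
    exact upper u a ha hu n
  · intro k hk hka
    obtain ⟨u, hu1, hu2⟩ := word_bound k hk a hka
    refine hu2.trans (le_csSup h1 ⟨Fin 2, inferInstance, u, k - 1, hu1, ?_⟩)
    rw [Nat.sub_add_cancel (by omega : 1 ≤ k)]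

end Pool.Agent.N703.FC
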