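import Pool.Agent.N703.FC.Upper

/-!
An upper bound of order `a log a` for the first difference of a linear factor complexity.
-/

namespace Pool.Agent.N703.FC

theorem halving (f : ℕ → ℕ) (a : ℕ) (hanti : ∀ s, f (s + 1) ≤ f s) (k : ℕ) :
    2 ^ ((Finset.range k).filter (fun s => 2 * f (a + s + 1) ≤ f (a + s))).card * f (a + k)
      ≤ f a := by
  induction k with
  | zero => simp
  | succ k ih =>
    rw [Finset.range_add_one, Finset.filter_insert]
    by_cases h : 2 * f (a + k + 1) ≤ f (a + k)
    · rw [if_pos h, Finset.card_insert_of_notMem (by simp), pow_succ,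
        show a + (k + 1) = a + k + 1 by ring]
      calc _ = 2 ^ ((Finset.range k).filter (fun s => 2 * f (a + s + 1) ≤ f (a + s))).card
            * (2 * f (a + k + 1)) := by ring
        _ ≤ 2 ^ ((Finset.range k).filter (fun s => 2 * f (a + s + 1) ≤ f (a + s))).card
            * f (a + k) := Nat.mul_le_mul_left _ h
        _ ≤ f a := ih
    · rw [if_neg h, show a + (k + 1) = a + k + 1 by ring]
      exact (Nat.mul_le_mul_left _ (hanti _)).trans ih

theorem comb2 {α : Type} [Finite α] (u : ℕ → α) (n T : ℕ) (hT : 3 * T ≤ n) :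
    (T + 1) * (W u (n + 1) '' {i | 2 * T ≤ i}).ncard ≤
      (T + 1) * (W u n '' {i | 2 * T ≤ i}).ncard +
      cplx u (n + 1 + T) * (1 + Nat.log 2 (cplx u (n + 1 + T + T) / (T + 1))) := by
  classical
  obtain ⟨n1, hn1⟩ : ∃ n1, n = n1 + T := ⟨n - T, by omega⟩
  set L := n + 1 + T with hL
  choose bs hbs using exists_break u n1 T (by omega)
  set G1 : Set (Fin (n + 1) → α) := W u (n + 1) '' {i | 2 * T ≤ i} with hG1
  set G0 : Set (Fin n → α) := W u n '' {i | 2 * T ≤ i} with hG0
  set WW : Set (Fin L → α) := W u L '' {i | T ≤ i} with hWW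
  set BK : ℕ → ℕ → Prop := fun i j => u (i + n + j) ≠ bs (W u n1 (i + T + j)) with hBK
  set S : ℕ → ℕ → Set (Fin L → α) := fun s i =>
    W u L '' {i' | T ≤ i' ∧ W u (n1 + s) (i' + T) = W u (n1 + s) (i + T)} with hS
  set C : ℕ → ℕ → Prop := fun i s => ((∀ j < s, ¬ BK i j) ∧ BK i s) ∨
    ((∃ j < s, BK i j) ∧ 2 * (S (s + 1) i).ncard ≤ (S s i).ncard) with hC
  -- breaks depend only on the letters
  have BKcongr : ∀ {i i' s}, W u (n1 + s) (i + T) = W u (n1 + s) (i' + T) → ∀ j < s,
      (BK i j ↔ BK i' j) := by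
    intro i i' s h j hj
    have h1 := W_sub j n1 h (by omega)
    have h2 := W_letter (n1 + j) h (by omega)
    simp only [hBK]
    rw [h1, show i + n + j = i + T + (n1 + j) by omega,
      show i' + n + j = i' + T + (n1 + j) by omega, h2]
  have Scongr : ∀ {i i' s}, W u (n1 + s) (i + T) = W u (n1 + s) (i' + T) → S s i = S s i' := by
    intro i i' s h
    simp only [hS]
    rw [h]
  have Smono : ∀ i s, S (s + 1) i ⊆ S s i := by
    rintro i s x ⟨k, ⟨hk, hk'⟩, rfl⟩
    refine ⟨k, ⟨hk, ?_⟩, rfl⟩
    have h1 := W_sub 0 (n1 + s) hk' (by omega)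
    simpa using h1
  have Ccongr : ∀ {i i' s}, s ≤ T → W u L i = W u L i' → (C i s ↔ C i' s) := by
    intro i i' s hs h
    have h0 : W u (n1 + (s + 1)) (i + T) = W u (n1 + (s + 1)) (i' + T) :=
      W_sub T (n1 + (s + 1)) h (by omega)
    have h1 : W u (n1 + s) (i + T) = W u (n1 + s) (i' + T) := W_sub T (n1 + s) h (by omega)
    have e1 : BK i s ↔ BK i' s := BKcongr h0 s (by omega)
    have e2 : (∀ j < s, ¬ BK i j) ↔ (∀ j < s, ¬ BK i' j) :=
      forall₂_congr (fun j hj => not_congr (BKcongr h1 j hj))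
    have e3 : (∃ j < s, BK i j) ↔ (∃ j < s, BK i' j) :=
      exists_congr (fun j => and_congr_right (fun hj => BKcongr h1 j hj))
    simp only [hC]
    rw [e1, e2, e3, Scongr h0, Scongr h1]
  -- chosen positions
  have hq : ∀ z : Fin (n + 1) → α, ∃ i, z ∈ G1 → 2 * T ≤ i ∧ W u (n + 1) i = z := by
    intro z
    by_cases h : z ∈ G1
    · obtain ⟨i, h1, h2⟩ := h
      exact ⟨i, fun _ => ⟨h1, h2⟩⟩
    · exact ⟨0, fun h' => absurd h' h⟩
  choose q hq using hq
  have hp : ∀ x : Fin L → α, ∃ i, x ∈ WW → T ≤ i ∧ W u L i = x := by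
    intro z
    by_cases h : z ∈ WW
    · obtain ⟨i, h1, h2⟩ := h
      exact ⟨i, fun _ => ⟨h1, h2⟩⟩
    · exact ⟨0, fun h' => absurd h' h⟩
  choose p hp using hp
  -- Step A
  have stepA : ∀ s ≤ T, G1.ncard ≤ G0.ncard + {z | z ∈ G1 ∧ C (q z - s) s}.ncard := by
    intro s hs
    have h1 : (G1 \ {z | z ∈ G1 ∧ C (q z - s) s}).ncard ≤ G0.ncard := by
      apply Set.ncard_le_ncard_of_injOn (fun x (j : Fin n) => x j.castSucc)
      · rintro x ⟨⟨i, hi, rfl⟩, -⟩
        exact ⟨i, hi, rfl⟩
      · rintro z ⟨hz, hzC⟩ z' ⟨hz', hzC'⟩ h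
        obtain ⟨k1, k2⟩ := hq z hz
        obtain ⟨k1', k2'⟩ := hq z' hz'
        have hzC : ¬ C (q z - s) s := fun h => hzC ⟨hz, h⟩
        have hzC' : ¬ C (q z' - s) s := fun h => hzC' ⟨hz', h⟩
        have hinit : W u n (q z) = W u n (q z') := by
          rw [← k2, ← k2'] at h
          exact h
        obtain ⟨i, hi⟩ : ∃ i, q z = i + s := ⟨q z - s, by omega⟩
        obtain ⟨i', hi'⟩ : ∃ i', q z' = i' + s := ⟨q z' - s, by omega⟩
        rw [hi, Nat.add_sub_cancel] at hzC
        rw [hi', Nat.add_sub_cancel] at hzC'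
        have hnode : W u (n1 + s) (i + T) = W u (n1 + s) (i' + T) := by
          rw [hi, hi'] at hinit
          have h3 := W_sub (T - s) (n1 + s) hinit (by omega)
          rwa [show i + s + (T - s) = i + T by omega,
            show i' + s + (T - s) = i' + T by omega] at h3
        by_contra hne
        have hlet : u (i + n + s) ≠ u (i' + n + s) := by
          intro h4
          apply hne
          rw [← k2, ← k2', W_eq_iff]
          intro j hj
          by_cases hjn : j = n
          · rw [hjn, hi, hi', show i + s + n = i + n + s by omega,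
              show i' + s + n = i' + n + s by omega]
            exact h4
          · exact W_eq_iff.1 hinit j (by omega)
        by_cases hbr : ∃ j < s, BK i j
        · have hbr' : ∃ j < s, BK i' j := by
            obtain ⟨j, hj, hj'⟩ := hbr
            exact ⟨j, hj, (BKcongr hnode j hj).1 hj'⟩
          have g1 : ¬ (2 * (S (s + 1) i).ncard ≤ (S s i).ncard) :=
            fun h => hzC (Or.inr ⟨hbr, h⟩)
          have g2 : ¬ (2 * (S (s + 1) i').ncard ≤ (S s i').ncard) :=
            fun h => hzC' (Or.inr ⟨hbr', h⟩)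
          rw [← Scongr hnode] at g2
          have hdisj : Disjoint (S (s + 1) i) (S (s + 1) i') := by
            rw [Set.disjoint_left]
            rintro x ⟨k, ⟨-, hk⟩, rfl⟩ ⟨k', ⟨-, hk'⟩, hkk⟩
            apply hlet
            have m1 := W_letter (n1 + s) hk (by omega)
            have m2 := W_letter (n1 + s) hk' (by omega)
            have m3 := W_letter (n + s) hkk (by omega)
            rw [show i + n + s = i + T + (n1 + s) by omega,
              show i' + n + s = i' + T + (n1 + s) by omega, ← m1, ← m2,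
              show k + T + (n1 + s) = k + (n + s) by omega,
              show k' + T + (n1 + s) = k' + (n + s) by omega, m3]
          have g3 : (S (s + 1) i).ncard + (S (s + 1) i').ncard ≤ (S s i).ncard := by
            rw [← Set.ncard_union_eq hdisj (Set.toFinite _) (Set.toFinite _)]
            apply Set.ncard_le_ncard _ (Set.toFinite _)
            apply Set.union_subset (Smono i s)
            rw [Scongr hnode]
            exact Smono i' s
          omega
        · have hnb : ∀ j < s, ¬ BK i j := fun j hj h => hbr ⟨j, hj, h⟩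
          have hnb' : ∀ j < s, ¬ BK i' j :=
            fun j hj h => hbr ⟨j, hj, (BKcongr hnode j hj).2 h⟩
          have g1 : ¬ BK i s := fun h => hzC (Or.inl ⟨hnb, h⟩)
          have g2 : ¬ BK i' s := fun h => hzC' (Or.inl ⟨hnb', h⟩)
          simp only [hBK, not_not] at g1 g2
          have g3 : W u n1 (i + T + s) = W u n1 (i' + T + s) := W_sub s n1 hnode (by omega)
          exact hlet (by rw [g1, g2, g3])
    have h2 := Set.ncard_le_ncard_sdiff_add_ncard G1 {z | z ∈ G1 ∧ C (q z - s) s}
    omega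
  -- Step B
  have stepB : ∀ s ≤ T, {z | z ∈ G1 ∧ C (q z - s) s}.ncard ≤ {x | x ∈ WW ∧ C (p x) s}.ncard := by
    intro s hs
    apply Set.ncard_le_ncard_of_injOn (fun z => W u L (q z - s))
    · rintro z ⟨hz, hzC⟩
      obtain ⟨k1, k2⟩ := hq z hz
      have h1 : W u L (q z - s) ∈ WW := ⟨q z - s, (by show T ≤ q z - s; omega), rfl⟩
      exact ⟨h1, (Ccongr hs (hp _ h1).2).2 hzC⟩
    · rintro z ⟨hz, -⟩ z' ⟨hz', -⟩ h
      obtain ⟨k1, k2⟩ := hq z hz
      obtain ⟨k1', k2'⟩ := hq z' hz'
      have h1 := W_sub s (n + 1) h (by omega)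
      rw [Nat.sub_add_cancel (by omega), Nat.sub_add_cancel (by omega)] at h1
      rw [← k2, ← k2', h1]
  -- Step E
  have stepE : ∀ i j, j ≤ T → BK i j →
      (S (j + 1) i).ncard * (T + 1) ≤ cplx u (L + T) := by
    intro i j hj hbk
    have hr : ∀ x : Fin L → α, ∃ k, x ∈ S (j + 1) i →
        (T ≤ k ∧ W u (n1 + (j + 1)) (k + T) = W u (n1 + (j + 1)) (i + T)) ∧ W u L k = x := by
      intro x
      by_cases h : x ∈ S (j + 1) i
      · obtain ⟨k, h1, h2⟩ := h
        exact ⟨k, fun _ => ⟨h1, h2⟩⟩
      · exact ⟨0, fun h' => absurd h' h⟩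
    choose r hr using hr
    have h1 : (S (j + 1) i ×ˢ (Set.univ : Set (Fin (T + 1)))).ncard
        = (S (j + 1) i).ncard * (T + 1) := by
      rw [Set.ncard_prod, Set.ncard_univ, Nat.card_eq_fintype_card, Fintype.card_fin]
    rw [← h1, cplx_eq]
    -- two shifts cannot agree
    have clash : ∀ k1 k2 d1 d2 : ℕ, d1 < d2 → d2 ≤ T → T ≤ k1 → T ≤ k2 →
        W u (n1 + (j + 1)) (k1 + T) = W u (n1 + (j + 1)) (i + T) →
        W u (n1 + (j + 1)) (k2 + T) = W u (n1 + (j + 1)) (i + T) →
        W u (L + T) (k1 - d1) = W u (L + T) (k2 - d2) → False := by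
      intro k1 k2 d1 d2 hd hd2 hk1 hk2 h3 h4 h5
      apply hbk
      -- the word before the break occurs at k1 + T + j and at k1 + T + j + (d2 - d1)
      have a1 : W u n1 (k1 + T + j) = W u n1 (i + T + j) := W_sub j n1 h3 (by omega)
      have a2 : W u n1 (k2 + T + j) = W u n1 (i + T + j) := W_sub j n1 h4 (by omega)
      have a3 : W u n1 (k1 - d1 + (d2 + T + j)) = W u n1 (k2 - d2 + (d2 + T + j)) :=
        W_sub (d2 + T + j) n1 h5 (by omega)
      have a4 : W u n1 (k1 + T + j + (d2 - d1)) = W u n1 (i + T + j) := by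
        rw [← a2, show k1 + T + j + (d2 - d1) = k1 - d1 + (d2 + T + j) by omega, a3]
        congr 1
        omega
      have a5 := hbs (W u n1 (i + T + j)) (k1 + T + j) (d2 - d1) (by omega) (by omega) a1 a4
      have a6 := W_letter (n1 + j) h3 (by omega)
      rw [show i + n + j = i + T + (n1 + j) by omega, ← a6,
        show k1 + T + (n1 + j) = k1 + T + j + n1 by omega, a5]
    apply Set.ncard_le_ncard_of_injOn (fun y : (Fin L → α) × Fin (T + 1) =>
      W u (L + T) (r y.1 - y.2))
    · rintro ⟨x, d⟩ -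
      exact ⟨_, rfl⟩
    · rintro ⟨x, d⟩ ⟨hx, -⟩ ⟨x', d'⟩ ⟨hx', -⟩ h
      obtain ⟨⟨k1, k2⟩, k3⟩ := hr x hx
      obtain ⟨⟨k1', k2'⟩, k3'⟩ := hr x' hx'
      simp only at h
      have hd := d.isLt
      have hd' := d'.isLt
      rcases lt_trichotomy (d : ℕ) (d' : ℕ) with hlt | heq | hgt
      · exact (clash (r x) (r x') d d' hlt (by omega) k1 k1' k2 k2' h).elim
      · have h5 : d = d' := Fin.ext heq
        subst h5
        have h6 := W_sub (d : ℕ) L h (by omega)
        rw [Nat.sub_add_cancel (by omega), Nat.sub_add_cancel (by omega), k3, k3'] at h6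
        rw [h6]
      · exact (clash (r x') (r x) d' d hgt (by omega) k1' k1 k2' k2 h.symm).elim
  -- Step D
  set K := cplx u (L + T) / (T + 1) with hK
  have stepD : ∀ i, T ≤ i → ((Finset.range (T + 1)).filter (fun s => C i s)).card
      ≤ 1 + Nat.log 2 K := by
    intro i hi
    by_cases hbr : ∃ j, j ≤ T ∧ BK i j
    · set j0 := Nat.find hbr with hj0
      obtain ⟨hj1, hj2⟩ := Nat.find_spec hbr
      have hmin : ∀ j < j0, ¬ BK i j := by
        intro j hj h
        exact Nat.find_min hbr hj ⟨by omega, h⟩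
      have hsub : (Finset.range (T + 1)).filter (fun s => C i s) ⊆
          insert j0 (((Finset.range (T + 1)).filter (fun s =>
            2 * (S (j0 + 1 + s + 1) i).ncard ≤ (S (j0 + 1 + s) i).ncard)).image
              (fun s => j0 + 1 + s)) := by
        intro s hs
        rw [Finset.mem_filter, Finset.mem_range] at hs
        obtain ⟨hs1, hs2⟩ := hs
        rw [Finset.mem_insert, Finset.mem_image]
        rcases hs2 with ⟨h1, h2⟩ | ⟨⟨j, h1, h2⟩, h3⟩
        · left
          by_contra hne
          rcases Nat.lt_or_gt_of_ne hne with h | h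
          · exact hmin s h h2
          · exact h1 j0 h hj2
        · right
          have h4 : j0 < s := by
            by_contra h5
            exact hmin j (by omega) h2
          refine ⟨s - (j0 + 1), ?_, by omega⟩
          rw [Finset.mem_filter, Finset.mem_range]
          refine ⟨by omega, ?_⟩
          rw [show j0 + 1 + (s - (j0 + 1)) = s by omega]
          exact h3
      have hcard := (Finset.card_le_card hsub).trans (Finset.card_insert_le _ _)
      have himg := Finset.card_image_le (s := (Finset.range (T + 1)).filter (fun s =>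
            2 * (S (j0 + 1 + s + 1) i).ncard ≤ (S (j0 + 1 + s) i).ncard))
              (f := fun s => j0 + 1 + s)
      have hhalf := halving (fun s => (S s i).ncard) (j0 + 1)
        (fun s => Set.ncard_le_ncard (Smono i s) (Set.toFinite _)) (T + 1)
      have hone : 1 ≤ (S (j0 + 1 + (T + 1)) i).ncard :=
        (Set.ncard_pos (Set.toFinite _)).2 ⟨_, i, ⟨hi, rfl⟩, rfl⟩
      have hSK : (S (j0 + 1) i).ncard ≤ K := by
        rw [hK, Nat.le_div_iff_mul_le (by omega)]
        exact stepE i j0 hj1 hj2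
      have hpow : 2 ^ ((Finset.range (T + 1)).filter (fun s =>
            2 * (S (j0 + 1 + s + 1) i).ncard ≤ (S (j0 + 1 + s) i).ncard)).card ≤ K := by
        refine le_trans ?_ (hhalf.trans hSK)
        exact Nat.le_mul_of_pos_right _ hone
      have hlog := Nat.le_log_of_pow_le (by norm_num) hpow
      omega
    · have hempty : (Finset.range (T + 1)).filter (fun s => C i s) = ∅ := by
        rw [Finset.filter_eq_empty_iff]
        intro s hs hCs
        rw [Finset.mem_range] at hs
        rcases hCs with ⟨-, h2⟩ | ⟨⟨j, h1, h2⟩, -⟩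
        · exact hbr ⟨s, by omega, h2⟩
        · exact hbr ⟨j, by omega, h2⟩
      rw [hempty]
      simp
  -- Step C
  have hWfin : WW.Finite := Set.toFinite _
  set Wf : Finset (Fin L → α) := hWfin.toFinset with hWf
  have stepC : ∑ s ∈ Finset.range (T + 1), {x | x ∈ WW ∧ C (p x) s}.ncard ≤
      Wf.card * (1 + Nat.log 2 K) := by
    have h1 : ∀ s, {x | x ∈ WW ∧ C (p x) s}.ncard = (Wf.filter (fun x => C (p x) s)).card := by
      intro s
      rw [← Set.ncard_coe_finset]
      congr 1
      ext x
      simp [hWf]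
    calc ∑ s ∈ Finset.range (T + 1), {x | x ∈ WW ∧ C (p x) s}.ncard
        = ∑ s ∈ Finset.range (T + 1), ∑ x ∈ Wf, (if C (p x) s then 1 else 0) := by
          apply Finset.sum_congr rfl
          intro s _
          rw [h1, Finset.card_filter]
      _ = ∑ x ∈ Wf, ∑ s ∈ Finset.range (T + 1), (if C (p x) s then 1 else 0) :=
          Finset.sum_comm
      _ ≤ ∑ x ∈ Wf, (1 + Nat.log 2 K) := by
          apply Finset.sum_le_sum
          intro x hx
          rw [← Finset.card_filter]
          exact stepD (p x) (hp x (by simpa [hWf] using hx)).1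
      _ = _ := by rw [Finset.sum_const, smul_eq_mul]
  have hWcard : Wf.card ≤ cplx u L := by
    rw [hWf, ← Set.ncard_eq_toFinset_card WW hWfin, cplx_eq]
    apply Set.ncard_le_ncard _ (Set.toFinite _)
    rintro x ⟨i, -, rfl⟩
    exact ⟨i, rfl⟩
  have hsum : ∑ s ∈ Finset.range (T + 1), G1.ncard ≤
      ∑ s ∈ Finset.range (T + 1), (G0.ncard + {x | x ∈ WW ∧ C (p x) s}.ncard) := by
    apply Finset.sum_le_sum
    intro s hs
    rw [Finset.mem_range] at hs
    exact (stepA s (by omega)).trans (Nat.add_le_add_left (stepB s (by omega)) _)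
  rw [Finset.sum_add_distrib, Finset.sum_const, Finset.sum_const, Finset.card_range,
    smul_eq_mul, smul_eq_mul] at hsum
  calc (T + 1) * G1.ncard ≤ (T + 1) * G0.ncard
        + ∑ s ∈ Finset.range (T + 1), {x | x ∈ WW ∧ C (p x) s}.ncard := hsum
    _ ≤ (T + 1) * G0.ncard + Wf.card * (1 + Nat.log 2 K) := Nat.add_le_add_left stepC _
    _ ≤ _ := Nat.add_le_add_left (Nat.mul_le_mul_right _ hWcard) _

end Pool.Agent.N703.FC
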