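import Pool.Agent.N703.FC.LogUpper

/-!
The order of growth of the optimal bound for the first difference of a linear factor complexity.
-/

namespace Pool.Agent.N703.FC

/-- `N` copies of a new letter followed by `u`. -/
def pad {α : Type} (u : ℕ → α) (N : ℕ) : ℕ → Option α :=
  fun i => if i < N then none else some (u (i - N))

theorem pad_G {α : Type} (u : ℕ → α) (N m : ℕ) :
    (W (pad u N) m '' {i | N ≤ i}).ncard = cplx u m := by
  have h : W (pad u N) m '' {i | N ≤ i} =
      (fun (w : Fin m → α) (j : Fin m) => some (w j)) '' Set.range (W u m) := by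
    ext x
    constructor
    · rintro ⟨i, hi, rfl⟩
      have hi' : N ≤ i := hi
      refine ⟨_, ⟨i - N, rfl⟩, ?_⟩
      funext j
      simp only [W, pad]
      rw [if_neg (by omega)]
      congr 2
      omega
    · rintro ⟨_, ⟨i, rfl⟩, rfl⟩
      refine ⟨i + N, (by show N ≤ i + N; omega), ?_⟩
      funext j
      simp only [W, pad]
      rw [if_neg (by omega)]
      congr 2
      omega
  rw [h, cplx_eq]
  apply Set.ncard_image_of_injective
  intro w w' hww
  funext j
  exact Option.some_injective _ (congrFun hww j)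

theorem pad_cplx {α : Type} [Finite α] (u : ℕ → α) (N m : ℕ) :
    cplx (pad u N) m ≤ cplx u m + m := by
  classical
  rw [← pad_G u N m, cplx_eq]
  have hsub : Set.range (W (pad u N) m) ⊆ (W (pad u N) m '' {i | N ≤ i}) ∪
      ((fun (c : ℕ) (j : Fin m) => if (j : ℕ) < c then none else some (u (j - c))) ''
        Set.Icc 1 m) := by
    rintro x ⟨i, rfl⟩
    by_cases hi : N ≤ i
    · exact Or.inl ⟨i, hi, rfl⟩
    · rcases Nat.eq_zero_or_pos m with hm | hm
      · left
        refine ⟨N, le_refl N, ?_⟩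
        subst hm
        funext j
        exact j.elim0
      · right
        refine ⟨min (N - i) m, ⟨by omega, by omega⟩, ?_⟩
        funext j
        have hj := j.isLt
        simp only [W, pad]
        by_cases h : (j : ℕ) < min (N - i) m
        · rw [if_pos h, if_pos (by omega)]
        · rw [if_neg h, if_neg (by omega)]
          congr 2
          omega
  refine (Set.ncard_le_ncard hsub (Set.toFinite _)).trans ((Set.ncard_union_le _ _).trans ?_)
  apply Nat.add_le_add_left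
  refine (Set.ncard_image_le (Set.toFinite _)).trans ?_
  rw [← Finset.coe_Icc, Set.ncard_coe_finset, Nat.card_Icc]
  omega

theorem log_upper {α : Type} [Finite α] (u : ℕ → α) (a : ℝ) (ha : 0 ≤ a)
    (hu : ∀ m : ℕ, (cplx u m : ℝ) ≤ a * m + 1) (n : ℕ) :
    (cplx u (n + 1) : ℝ) - cplx u n ≤ 4 * (a + 1) * (1 + Real.logb 2 (5 * (a + 1))) := by
  obtain ⟨T, hT1, hT2⟩ : ∃ T, 3 * T ≤ n ∧ n ≤ 3 * T + 2 := ⟨n / 3, by omega, by omega⟩
  have hc := comb2 (pad u (2 * T)) n T hT1
  rw [pad_G, pad_G] at hc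
  set P := cplx (pad u (2 * T)) (n + 1 + T) with hP
  set Q := cplx (pad u (2 * T)) (n + 1 + T + T) with hQ
  have hpad : ∀ m : ℕ, (cplx (pad u (2 * T)) m : ℝ) ≤ (a + 1) * m + 1 := by
    intro m
    have h1 : (cplx (pad u (2 * T)) m : ℝ) ≤ (cplx u m : ℝ) + m := by
      exact_mod_cast pad_cplx u (2 * T) m
    have h2 := hu m
    linarith
  have hTr : (0 : ℝ) ≤ T := Nat.cast_nonneg T
  have hnr : (n : ℝ) ≤ 3 * T + 2 := by exact_mod_cast hT2
  have hPr : (P : ℝ) ≤ 4 * (a + 1) * ((T : ℝ) + 1) := by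
    have h1 := hpad (n + 1 + T)
    push_cast at h1
    nlinarith
  have hQr : (Q : ℝ) ≤ 5 * (a + 1) * ((T : ℝ) + 1) := by
    have h1 := hpad (n + 1 + T + T)
    push_cast at h1
    nlinarith
  have hTpos : (0 : ℝ) < (T : ℝ) + 1 := by linarith
  have hK : ((Q / (T + 1) : ℕ) : ℝ) ≤ 5 * (a + 1) := by
    have h1 : ((Q / (T + 1) : ℕ) : ℝ) ≤ (Q : ℝ) / ((T + 1 : ℕ) : ℝ) := Nat.cast_div_le
    push_cast at h1
    refine h1.trans ?_
    rw [div_le_iff₀ hTpos]
    exact hQr
  have hlog0 : 0 ≤ Real.logb 2 (5 * (a + 1)) :=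
    Real.logb_nonneg (by norm_num) (by linarith)
  have hlog : ((Nat.log 2 (Q / (T + 1)) : ℕ) : ℝ) ≤ Real.logb 2 (5 * (a + 1)) := by
    by_cases h0 : Q / (T + 1) = 0
    · rw [h0]
      simpa using hlog0
    · rw [Real.le_logb_iff_rpow_le (by norm_num) (by linarith), Real.rpow_natCast]
      have h1 := Nat.pow_log_le_self 2 h0
      have h2 : ((2 : ℝ) ^ Nat.log 2 (Q / (T + 1))) ≤ ((Q / (T + 1) : ℕ) : ℝ) := by
        exact_mod_cast h1
      exact h2.trans hK
  have hc' : ((T : ℝ) + 1) * cplx u (n + 1) ≤ ((T : ℝ) + 1) * cplx u n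
      + (P : ℝ) * (1 + (Nat.log 2 (Q / (T + 1)) : ℕ)) := by exact_mod_cast hc
  have h6 : ((T : ℝ) + 1) * ((cplx u (n + 1) : ℝ) - cplx u n)
      ≤ ((T : ℝ) + 1) * (4 * (a + 1) * (1 + Real.logb 2 (5 * (a + 1)))) := by
    have h7 : (P : ℝ) * (1 + (Nat.log 2 (Q / (T + 1)) : ℕ)) ≤
        (4 * (a + 1) * ((T : ℝ) + 1)) * (1 + Real.logb 2 (5 * (a + 1))) :=
      mul_le_mul hPr (by linarith) (by positivity) (by positivity)
    nlinarith
  exact le_of_mul_le_mul_left h6 hTpos

end Pool.Agent.N703.FC
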