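import Pool.Agent.N703.FC.Core

/-!
A quadratic upper bound for the first difference of a linear factor complexity.
-/

namespace Pool.Agent.N703.FC

/-- The window of length `n` of `u` at position `i`. -/
def W {α : Type} (u : ℕ → α) (n i : ℕ) : Fin n → α := fun j => u (i + j)

theorem cplx_eq {α : Type} (u : ℕ → α) (n : ℕ) : cplx u n = (Set.range (W u n)).ncard := rfl

theorem W_eq_iff {α : Type} {u : ℕ → α} {n i i' : ℕ} :
    W u n i = W u n i' ↔ ∀ j < n, u (i + j) = u (i' + j) := by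
  constructor
  · intro h j hj
    exact congrFun h ⟨j, hj⟩
  · intro h
    funext j
    exact h j j.isLt

theorem W_sub {α : Type} {u : ℕ → α} {L i i' : ℕ} (s n : ℕ) (h : W u L i = W u L i')
    (hs : s + n ≤ L) : W u n (i + s) = W u n (i' + s) := by
  rw [W_eq_iff] at h ⊢
  intro j hj
  have h1 := h (s + j) (by omega)
  rwa [← add_assoc, ← add_assoc] at h1

theorem W_letter {α : Type} {u : ℕ → α} {L i i' : ℕ} (s : ℕ) (h : W u L i = W u L i')
    (hs : s < L) : u (i + s) = u (i' + s) := W_eq_iff.1 h s hs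

theorem exists_break {α : Type} (u : ℕ → α) (n0 T : ℕ) (hT : 2 * T ≤ n0) (w : Fin n0 → α) :
    ∃ e : α, ∀ t d, 1 ≤ d → d ≤ T → W u n0 t = w → W u n0 (t + d) = w → u (t + n0) = e := by
  classical
  by_cases h : ∃ t d, 1 ≤ d ∧ d ≤ T ∧ W u n0 t = w ∧ W u n0 (t + d) = w
  · obtain ⟨t', d', h1', h2', h3', h4'⟩ := h
    refine ⟨u (t' + n0), fun t d h1 h2 h3 h4 => ?_⟩
    have A : ∀ j < n0, u (t + j) = u (t' + j) := W_eq_iff.1 (h3.trans h3'.symm)
    have B : ∀ j < n0, u (t + d + j) = u (t + j) := W_eq_iff.1 (h4.trans h3.symm)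
    have B' : ∀ j < n0, u (t' + d' + j) = u (t' + j) := W_eq_iff.1 (h4'.trans h3'.symm)
    have e1 : u (t + n0) = u (t + (n0 - d)) := by
      have h5 := B (n0 - d) (by omega)
      rwa [show t + d + (n0 - d) = t + n0 by omega] at h5
    have e1' : u (t' + n0) = u (t' + (n0 - d')) := by
      have h5 := B' (n0 - d') (by omega)
      rwa [show t' + d' + (n0 - d') = t' + n0 by omega] at h5
    have e2 : u (t + (n0 - d)) = u (t' + (n0 - d)) := A _ (by omega)
    have e3 : u (t' + (n0 - d)) = u (t' + (n0 - d - d')) := by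
      have h5 := B' (n0 - d - d') (by omega)
      rwa [show t' + d' + (n0 - d - d') = t' + (n0 - d) by omega] at h5
    have e4 : u (t + (n0 - d')) = u (t' + (n0 - d')) := A _ (by omega)
    have e5 : u (t + (n0 - d')) = u (t + (n0 - d - d')) := by
      have h5 := B (n0 - d - d') (by omega)
      rwa [show t + d + (n0 - d - d') = t + (n0 - d') by omega] at h5
    have e6 : u (t + (n0 - d - d')) = u (t' + (n0 - d - d')) := A _ (by omega)
    rw [e1, e2, e3, e1', ← e4, e5, e6]
  · exact ⟨u 0, fun t d h1 h2 h3 h4 => absurd ⟨t, d, h1, h2, h3, h4⟩ h⟩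

/-- The right special words of length `n0`. -/
def RSp {α : Type} (u : ℕ → α) (n0 : ℕ) : Set (Fin n0 → α) :=
  {w | ∃ t t', W u n0 t = w ∧ W u n0 t' = w ∧ u (t + n0) ≠ u (t' + n0)}

theorem rsp_le {α : Type} [Finite α] (u : ℕ → α) (n0 : ℕ) :
    cplx u n0 + (RSp u n0).ncard ≤ cplx u (n0 + 1) := by
  classical
  have hpos : ∀ w : Fin n0 → α, ∃ t, w ∈ Set.range (W u n0) → W u n0 t = w := by
    intro w
    by_cases h : w ∈ Set.range (W u n0)
    · obtain ⟨t, ht⟩ := h
      exact ⟨t, fun _ => ht⟩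
    · exact ⟨0, fun h' => absurd h' h⟩
  choose pos hpos using hpos
  have hpos' : ∀ w : Fin n0 → α, ∃ t, w ∈ RSp u n0 →
      W u n0 t = w ∧ u (t + n0) ≠ u (pos w + n0) := by
    intro w
    by_cases h : w ∈ RSp u n0
    · obtain ⟨t, t', h1, h2, h3⟩ := h
      by_cases h4 : u (t + n0) = u (pos w + n0)
      · exact ⟨t', fun _ => ⟨h2, fun h5 => h3 (h4.trans h5.symm)⟩⟩
      · exact ⟨t, fun _ => ⟨h1, h4⟩⟩
    · exact ⟨0, fun h' => absurd h' h⟩
  choose pos' hpos' using hpos'
  have hinit : ∀ {i i' : ℕ}, W u (n0 + 1) i = W u (n0 + 1) i' →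
      W u n0 i = W u n0 i' ∧ u (i + n0) = u (i' + n0) := by
    intro i i' h
    refine ⟨?_, W_letter n0 h (by omega)⟩
    have h1 := W_sub 0 n0 h (by omega)
    simpa using h1
  have hA : ((fun w => W u (n0 + 1) (pos w)) '' Set.range (W u n0)).ncard
      = (Set.range (W u n0)).ncard := by
    apply Set.ncard_image_of_injOn
    intro w hw w' hw' h
    have h1 := (hinit h).1
    rwa [hpos w hw, hpos w' hw'] at h1
  have hB : ((fun w => W u (n0 + 1) (pos' w)) '' RSp u n0).ncard = (RSp u n0).ncard := by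
    apply Set.ncard_image_of_injOn
    intro w hw w' hw' h
    have h1 := (hinit h).1
    rwa [(hpos' w hw).1, (hpos' w' hw').1] at h1
  have hdisj : Disjoint ((fun w => W u (n0 + 1) (pos w)) '' Set.range (W u n0))
      ((fun w => W u (n0 + 1) (pos' w)) '' RSp u n0) := by
    rw [Set.disjoint_left]
    rintro x ⟨w, hw, rfl⟩ ⟨w', hw', h⟩
    have h1 := hinit h
    rw [(hpos' w' hw').1, hpos w hw] at h1
    obtain ⟨h2, h3⟩ := h1
    subst h2
    exact (hpos' w' hw').2 h3
  rw [cplx_eq, cplx_eq, ← hA, ← hB, ← Set.ncard_union_eq hdisj (Set.toFinite _) (Set.toFinite _)]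
  apply Set.ncard_le_ncard _ (Set.toFinite _)
  rintro x (⟨w, -, rfl⟩ | ⟨w, -, rfl⟩)
  · exact ⟨_, rfl⟩
  · exact ⟨_, rfl⟩

theorem comb {α : Type} [Finite α] (u : ℕ → α) (n n0 T : ℕ) (hT : 2 * T ≤ n0) (hn : n0 ≤ n) :
    (T + 1) * cplx u (n + 1) ≤ (T + 1) * cplx u n + (T + 1) * (RSp u n0).ncard
      + (RSp u n0).ncard * cplx u (n + 1 + T) := by
  classical
  choose bs hbs using exists_break u n0 T hT
  -- break positions
  set BR : ℕ → Prop := fun i => W u n0 (i + (n - n0)) ∈ RSp u n0 ∧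
    u (i + n) ≠ bs (W u n0 (i + (n - n0))) with hBR
  -- two break positions with the same word are far apart
  have far : ∀ i d, 1 ≤ d → d ≤ T → BR i →
      W u n0 (i + d + (n - n0)) = W u n0 (i + (n - n0)) → False := by
    intro i d h1 h2 h3 h4
    apply h3.2
    have h5 := hbs (W u n0 (i + (n - n0))) (i + (n - n0)) d h1 h2 rfl
      (by rw [← h4]; congr 1; omega)
    rwa [show i + (n - n0) + n0 = i + n by omega] at h5
  have BRcongr : ∀ {i i'}, W u (n + 1) i = W u (n + 1) i' → BR i → BR i' := by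
    intro i i' h h1
    have h2 := W_sub (n - n0) n0 h (by omega)
    have h3 := W_letter n h (by omega)
    simp only [hBR] at h1 ⊢
    rwa [← h2, ← h3]
  set X : Set (Fin (n + 1) → α) := {x | ∃ i, W u (n + 1) i = x ∧ BR i} with hX
  set X1 : Set (Fin (n + 1) → α) := {x | ∃ i, T ≤ i ∧ W u (n + 1) i = x ∧ BR i} with hX1
  set X2 : Set (Fin (n + 1) → α) := {x | ∃ i, i < T ∧ W u (n + 1) i = x ∧ BR i} with hX2
  have hXX : X ⊆ X1 ∪ X2 := by
    rintro x ⟨i, h1, h2⟩
    by_cases h : T ≤ i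
    · exact Or.inl ⟨i, h, h1, h2⟩
    · exact Or.inr ⟨i, by omega, h1, h2⟩
  -- step 1
  have s1 : cplx u (n + 1) ≤ cplx u n + X.ncard := by
    have h1 : (Set.range (W u (n + 1)) \ X).ncard ≤ (Set.range (W u n)).ncard := by
      apply Set.ncard_le_ncard_of_injOn (fun x (j : Fin n) => x j.castSucc)
      · rintro x ⟨⟨i, rfl⟩, -⟩
        exact ⟨i, rfl⟩
      · rintro x ⟨⟨i, rfl⟩, hx⟩ x' ⟨⟨i', rfl⟩, hx'⟩ h
        have h2 : W u n i = W u n i' := h
        by_contra hne
        have h3 : u (i + n) ≠ u (i' + n) := by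
          intro h4
          apply hne
          rw [W_eq_iff]
          intro j hj
          by_cases hjn : j = n
          · rw [hjn]; exact h4
          · exact W_eq_iff.1 h2 j (by omega)
        have h5 : W u n0 (i + (n - n0)) = W u n0 (i' + (n - n0)) :=
          W_sub (n - n0) n0 h2 (by omega)
        have h6 : W u n0 (i + (n - n0)) ∈ RSp u n0 :=
          ⟨i + (n - n0), i' + (n - n0), rfl, h5.symm, by
            rwa [show i + (n - n0) + n0 = i + n by omega,
              show i' + (n - n0) + n0 = i' + n by omega]⟩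
        have h7 : u (i + n) = bs (W u n0 (i + (n - n0))) := by
          by_contra h8
          exact hx ⟨i, rfl, h6, h8⟩
        have h9 : u (i' + n) = bs (W u n0 (i' + (n - n0))) := by
          by_contra h8
          exact hx' ⟨i', rfl, h5 ▸ h6, h8⟩
        apply h3
        rw [h7, h9, h5]
    have h2 : cplx u (n + 1) ≤ (Set.range (W u (n + 1)) \ X).ncard + X.ncard := by
      rw [cplx_eq]
      have h3 := Set.ncard_le_ncard_sdiff_add_ncard (Set.range (W u (n + 1))) X
      exact h3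
    rw [cplx_eq u n]
    omega
  -- step 2
  have hchoose : ∀ (S : ℕ → Prop) (x : Fin (n + 1) → α), ∃ i,
      (∃ i', S i' ∧ W u (n + 1) i' = x ∧ BR i') → S i ∧ W u (n + 1) i = x ∧ BR i := by
    intro S x
    by_cases h : ∃ i', S i' ∧ W u (n + 1) i' = x ∧ BR i'
    · obtain ⟨i', h'⟩ := h
      exact ⟨i', fun _ => h'⟩
    · exact ⟨0, fun h' => absurd h' h⟩
  have s2 : X2.ncard ≤ (RSp u n0).ncard := by
    choose p hp using hchoose (fun i => i < T)
    apply Set.ncard_le_ncard_of_injOn (fun x => W u n0 (p x + (n - n0)))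
    · intro x hx
      exact (hp x hx).2.2.1
    · intro x hx x' hx' h
      obtain ⟨h1, h2, h3⟩ := hp x hx
      obtain ⟨h1', h2', h3'⟩ := hp x' hx'
      simp only at h
      rcases lt_trichotomy (p x) (p x') with hlt | heq | hgt
      · exact (far (p x) (p x' - p x) (by omega) (by omega) h3
          (by rw [show p x + (p x' - p x) = p x' by omega]; exact h.symm)).elim
      · rw [← h2, ← h2', heq]
      · exact (far (p x') (p x - p x') (by omega) (by omega) h3'
          (by rw [show p x' + (p x - p x') = p x by omega]; exact h)).elim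
  -- step 3
  have s3 : X1.ncard * (T + 1) ≤ (RSp u n0).ncard * cplx u (n + 1 + T) := by
    choose p hp using hchoose (fun i => T ≤ i)
    have h1 : (X1 ×ˢ (Set.univ : Set (Fin (T + 1)))).ncard = X1.ncard * (T + 1) := by
      rw [Set.ncard_prod, Set.ncard_univ, Nat.card_eq_fintype_card, Fintype.card_fin]
    have h2 : (RSp u n0 ×ˢ Set.range (W u (n + 1 + T))).ncard
        = (RSp u n0).ncard * cplx u (n + 1 + T) := by
      rw [Set.ncard_prod, cplx_eq]
    rw [← h1, ← h2]
    apply Set.ncard_le_ncard_of_injOn (fun y : (Fin (n + 1) → α) × Fin (T + 1) =>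
      (W u n0 (p y.1 + (n - n0)), W u (n + 1 + T) (p y.1 - y.2)))
    · rintro ⟨x, s⟩ ⟨hx, -⟩
      exact ⟨(hp x hx).2.2.1, ⟨_, rfl⟩⟩
    · rintro ⟨x, s⟩ ⟨hx, -⟩ ⟨x', s'⟩ ⟨hx', -⟩ h
      obtain ⟨k1, k2, k3⟩ := hp x hx
      obtain ⟨k1', k2', k3'⟩ := hp x' hx'
      simp only [Prod.mk.injEq] at h
      obtain ⟨hw, hy⟩ := h
      have hs := s.isLt
      have hs' := s'.isLt
      -- compare the windows
      have c1 : W u (n + 1) (p x) = W u (n + 1) (p x' - s' + s) := by
        have h3 := W_sub (s : ℕ) (n + 1) hy (by omega)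
        rwa [show p x - (s : ℕ) + s = p x by omega] at h3
      have c2 : W u (n + 1) (p x - s + s') = W u (n + 1) (p x') := by
        have h3 := W_sub (s' : ℕ) (n + 1) hy (by omega)
        rwa [show p x' - (s' : ℕ) + s' = p x' by omega] at h3
      rcases lt_trichotomy (s : ℕ) (s' : ℕ) with hlt | heq | hgt
      · exfalso
        apply far (p x) (s' - s) (by omega) (by omega) k3
        have h4 := W_sub (n - n0) n0 c2 (by omega)
        rw [show p x - (s : ℕ) + s' + (n - n0) = p x + (s' - s) + (n - n0) by omega] at h4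
        rw [h4, hw]
      · have h5 : s = s' := Fin.ext heq
        subst h5
        rw [show p x' - (s : ℕ) + s = p x' by omega] at c1
        rw [← k2, ← k2', c1]
      · exfalso
        apply far (p x') (s - s') (by omega) (by omega) k3'
        have h4 := W_sub (n - n0) n0 c1 (by omega)
        rw [show p x' - (s' : ℕ) + s + (n - n0) = p x' + (s - s') + (n - n0) by omega] at h4
        rw [← h4, hw]
  have s4 : X.ncard ≤ X1.ncard + X2.ncard :=
    (Set.ncard_le_ncard hXX (Set.toFinite _)).trans (Set.ncard_union_le _ _)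
  calc (T + 1) * cplx u (n + 1) ≤ (T + 1) * (cplx u n + (X1.ncard + X2.ncard)) :=
        Nat.mul_le_mul_left _ (s1.trans (Nat.add_le_add_left s4 _))
    _ = (T + 1) * cplx u n + (T + 1) * X2.ncard + X1.ncard * (T + 1) := by ring
    _ ≤ _ := Nat.add_le_add (Nat.add_le_add_left (Nat.mul_le_mul_left _ s2) _) s3

theorem cplx_pos {α : Type} [Finite α] (u : ℕ → α) (n : ℕ) : 1 ≤ cplx u n := by
  rw [cplx_eq]
  exact (Set.ncard_pos (Set.toFinite _)).2 ⟨_, 0, rfl⟩

theorem upper {α : Type} [Finite α] (u : ℕ → α) (a : ℝ) (ha : 1 ≤ a)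
    (hu : ∀ m : ℕ, (cplx u m : ℝ) ≤ a * m + 1) (n : ℕ) :
    (cplx u (n + 1) : ℝ) - cplx u n ≤ 10 * a ^ 2 + 2 * a := by
  have hpos : ∀ m, (1 : ℝ) ≤ cplx u m := fun m => by exact_mod_cast cplx_pos u m
  rcases Nat.lt_or_ge n 2 with hn | hn
  · have h1 := hu (n + 1)
    have h2 := hpos n
    have h3 : ((n + 1 : ℕ) : ℝ) ≤ 2 := by exact_mod_cast (by omega : n + 1 ≤ 2)
    nlinarith
  · obtain ⟨m, hm1, hm2, hm3⟩ : ∃ m, 1 ≤ m ∧ 2 * m ≤ n ∧ n ≤ 2 * m + 1 :=
      ⟨n / 2, by omega, by omega, by omega⟩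
    have hex : ∃ n0, m ≤ n0 ∧ n0 < 2 * m ∧ (cplx u (n0 + 1) : ℝ) - cplx u n0 ≤ 2 * a := by
      by_contra hcon
      push Not at hcon
      have h1 : ∀ j : ℕ, j ≤ m → (cplx u m : ℝ) + 2 * a * j ≤ cplx u (m + j) := by
        intro j
        induction j with
        | zero => intro _; simp
        | succ j ih =>
          intro hj
          have h2 := ih (by omega)
          have h3 := hcon (m + j) (by omega) (by omega)
          rw [show m + (j + 1) = m + j + 1 by ring]
          push_cast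
          linarith
      have h1' : ∀ j : ℕ, 1 ≤ j → j ≤ m → (cplx u m : ℝ) + 2 * a * j < cplx u (m + j) := by
        intro j hj1 hj
        obtain ⟨i, rfl⟩ : ∃ i, j = i + 1 := ⟨j - 1, by omega⟩
        have h2 := h1 i (by omega)
        have h3 := hcon (m + i) (by omega) (by omega)
        rw [show m + (i + 1) = m + i + 1 by ring]
        push_cast
        linarith
      have h4 := h1' m hm1 (le_refl _)
      have h5 := hu (m + m)
      have h6 := hpos m
      push_cast at h5
      linarith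
    obtain ⟨n0, h1, h2, h3⟩ := hex
    have hr := rsp_le u n0
    have hc := comb u n n0 (n0 / 2) (by omega) (by omega)
    set T := n0 / 2 with hTdef
    set r := (RSp u n0).ncard with hrdef
    have hrr : (r : ℝ) ≤ 2 * a := by
      have h4 : (cplx u n0 : ℝ) + r ≤ cplx u (n0 + 1) := by exact_mod_cast hr
      linarith
    have hr0 : (0 : ℝ) ≤ r := Nat.cast_nonneg r
    have hc' : ((T : ℝ) + 1) * cplx u (n + 1) ≤ ((T : ℝ) + 1) * cplx u n
        + ((T : ℝ) + 1) * r + r * cplx u (n + 1 + T) := by exact_mod_cast hc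
    have hL := hu (n + 1 + T)
    push_cast at hL
    have hT4 : (n : ℝ) + 1 ≤ 4 * ((T : ℝ) + 1) := by
      have h5 : n + 1 ≤ 4 * (T + 1) := by omega
      exact_mod_cast h5
    have hTpos : (0 : ℝ) < (T : ℝ) + 1 := by positivity
    have hn0 : (0 : ℝ) ≤ n := Nat.cast_nonneg n
    -- p(L) ≤ 5 a (T + 1)
    have hL2 : (cplx u (n + 1 + T) : ℝ) ≤ 5 * a * ((T : ℝ) + 1) := by
      nlinarith
    have h6 : ((T : ℝ) + 1) * ((cplx u (n + 1) : ℝ) - cplx u n)
        ≤ ((T : ℝ) + 1) * (10 * a ^ 2 + 2 * a) := by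
      have h7 : (r : ℝ) * cplx u (n + 1 + T) ≤ (2 * a) * (5 * a * ((T : ℝ) + 1)) :=
        mul_le_mul hrr hL2 (Nat.cast_nonneg _) (by linarith)
      have h8 : ((T : ℝ) + 1) * r ≤ ((T : ℝ) + 1) * (2 * a) :=
        mul_le_mul_of_nonneg_left hrr hTpos.le
      nlinarith
    exact le_of_mul_le_mul_left h6 hTpos

end Pool.Agent.N703.FC
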